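import Pool.Agent.H52.SP.Num

/-!
# The linear term of the shortest universal supersequence is not linear

`f(n) ≤ n² - n log₂ log₂ n + 2 n` for all `n ≥ 4`; in particular `(n² - f(n)) / n → ∞`.

The proof is in `Pool/Agent/H52/SP`: `Word` (words given by a code), `Main` and `Univ` (universal
words from a blocking system of moving letters), `Tree` (a tree of homes is blocking), `Num`
(numerical parameters).
-/

namespace Pool.Agent.Results.MP_81fcf0_co.IteratedLog

/-- `γ` is a universal supersequence over the alphabet `Fin n`: every permutation of the alphabet,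
written as the list of its values, is a subsequence of `γ`. -/
def Universal {n : ℕ} (γ : List (Fin n)) : Prop :=
  ∀ π : Equiv.Perm (Fin n), (List.ofFn π).Sublist γ

/-- The minimum length `f(n)` of a universal supersequence over an `n`-letter alphabet. -/
noncomputable def minLength (n : ℕ) : ℕ :=
  sInf {L | ∃ γ : List (Fin n), Universal γ ∧ γ.length = L}

/-- `f(n) ≤ n² - n log₂ log₂ n + 2 n` for all `n ≥ 4`. -/
theorem result : ∀ n : ℕ, 4 ≤ n →
    (minLength n : ℝ) ≤ (n : ℝ) ^ 2 - n * Real.logb 2 (Real.logb 2 n) + 2 * n :=
  fun n hn => Pool.Agent.H52.SP.main_bound n hn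

end Pool.Agent.Results.MP_81fcf0_co.IteratedLog
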