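import Pool.Agent.H66.SLC.Main
import Pool.Agent.H67.AT.All
import Pool.Agent.H53.SR.Final

/-!
# Lower bound for the shortest universal supersequence

For every `ε > 0` there is `C > 0` such that `f(n) ≥ n² - C n^(1 + ε)` for all `n ≥ 1`.
-/

namespace Pool.Agent.Results.MP_81fcf0_co.LowerNearLinear

/-- `γ` is a universal supersequence over the alphabet `Fin n`: every permutation of the alphabet,
written as the list of its values, is a subsequence of `γ`. -/
def Universal {n : ℕ} (γ : List (Fin n)) : Prop :=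
  ∀ π : Equiv.Perm (Fin n), (List.ofFn π).Sublist γ

/-- The minimum length `f(n)` of a universal supersequence over an `n`-letter alphabet. -/
noncomputable def minLength (n : ℕ) : ℕ :=
  sInf {L | ∃ γ : List (Fin n), Universal γ ∧ γ.length = L}

/-- For every `ε > 0` there is `C > 0` such that `f(n) ≥ n² - C n^(1 + ε)` for all `n ≥ 1`. -/
theorem result : ∀ ε : ℝ, 0 < ε → ∃ C : ℝ, 0 < C ∧ ∀ n : ℕ, 1 ≤ n →
    (n : ℝ) ^ 2 - C * (n : ℝ) ^ (1 + ε) ≤ (minLength n : ℝ) := by
  intro ε hε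
  obtain ⟨C, hC, h⟩ := Pool.Agent.H53.SR.lower_eps
    (Pool.Agent.H66.SLC.main Pool.Agent.H67.AT.at_) ε hε
  refine ⟨C, hC, fun n _ => ?_⟩
  have hne : {L | ∃ γ : List (Fin n), Universal γ ∧ γ.length = L}.Nonempty := by
    obtain ⟨γ, hγ⟩ := Pool.Agent.H52.FT.Words.exists_universal n
    exact ⟨γ.length, γ, hγ, rfl⟩
  obtain ⟨γ, hγ, hlen⟩ := Nat.sInf_mem hne
  have hf : minLength n = γ.length := hlen.symm
  rw [hf]
  exact h n γ hγ

end Pool.Agent.Results.MP_81fcf0_co.LowerNearLinear
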