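import Mathlib

/-!
# Short sequences containing all permutations: `f(n) ≤ n² - 3n + 2√(3n) + 9`

The alphabet is split into `m` ordinary letters, `r` stars and one skip letter, `n = m + r + 1`.
The ordinary letters are written cyclically.  After every `m - 1` of them a new row of special
letters starts: the stars are put in the same `r` columns of each row (with one ordinary letter
between neighbouring columns), and the skip letter sits between two neighbouring stars; from row to
row it moves one star to the left, and in every `r`-th row it occurs twice, before the first and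
after the last star.  The greedy embedding of a permutation uses one row per ordinary letter, and
a potential function shows that the special letters cost only `r - 1` further rows in total.
So `(n - 2)` rows with about `n - 1 + 1 / r` letters each are enough.
-/

namespace Pool.Agent.Results.MP_81fcf0_co.ThreeN

open Finset

/-- `γ` is a universal supersequence over the alphabet `Fin n`: every permutation of the alphabet,
written as the list of its values, is a subsequence of `γ`. -/
def Universal {n : ℕ} (γ : List (Fin n)) : Prop :=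
  ∀ π : Equiv.Perm (Fin n), (List.ofFn π).Sublist γ

/-- The minimum length `f(n)` of a universal supersequence over an `n`-letter alphabet. -/
noncomputable def minLength (n : ℕ) : ℕ :=
  sInf {L | ∃ γ : List (Fin n), Universal γ ∧ γ.length = L}

/-! ### Words given by a code -/

/-- The word read off from the slots `0, 1, …, N - 1`: slot `s` carries the letter `code s` when
`code s < n` and no letter otherwise. -/
def word (n : ℕ) (code : ℕ → ℕ) (N : ℕ) : List (Fin n) :=
  (List.range N).filterMap (fun s => if h : code s < n then some ⟨code s, h⟩ else none)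

theorem word_succ (n : ℕ) (code : ℕ → ℕ) (N : ℕ) :
    word n code (N + 1) = word n code N ++
      (if h : code N < n then [(⟨code N, h⟩ : Fin n)] else []) := by
  unfold word
  rw [List.range_succ, List.filterMap_append]
  congr 1
  by_cases h : code N < n
  · simp [h]
  · simp [h]

theorem word_mono (n : ℕ) (code : ℕ → ℕ) {a b : ℕ} (h : a ≤ b) :
    (word n code a).Sublist (word n code b) := by
  induction b, h using Nat.le_induction with
  | base => exact List.Sublist.refl _
  | succ b _ ih =>
    rw [word_succ]
    exact ih.trans (List.sublist_append_left _ _)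

theorem step {n : ℕ} {code : ℕ → ℕ} {l : List (Fin n)} {pos s : ℕ} {x : Fin n}
    (h : l.Sublist (word n code pos)) (hs : pos ≤ s) (hx : code s = x.val) :
    (l ++ [x]).Sublist (word n code (s + 1)) := by
  rw [word_succ]
  have h1 : code s < n := by rw [hx]; exact x.isLt
  rw [dif_pos h1]
  have h2 : (⟨code s, h1⟩ : Fin n) = x := Fin.ext hx
  rw [h2]
  exact List.Sublist.append (h.trans (word_mono n code hs)) (List.Sublist.refl _)

/-! ### Residues -/

theorem exists_mod (m a y : ℕ) (hm : 0 < m) (hy : y < m) : ∃ t, a ≤ t ∧ t < a + m ∧ t % m = y := by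
  refine ⟨a + (y + (m - a % m)) % m, Nat.le_add_right _ _,
    Nat.add_lt_add_left (Nat.mod_lt _ hm) _, ?_⟩
  rw [Nat.add_mod_mod]
  have h1 : a + (y + (m - a % m)) = y + m * (a / m + 1) := by
    have h2 := Nat.div_add_mod a m
    have h3 : a % m < m := Nat.mod_lt _ hm
    have h4 : m * (a / m + 1) = m * (a / m) + m := by ring
    omega
  rw [h1, Nat.add_mul_mod_self_left, Nat.mod_eq_of_lt hy]

/-! ### The code of the construction

The alphabet has `m` ordinary letters `0, …, m - 1`, `r` letters `m, …, m + r - 1` (called stars)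
and the letter `m + r` (called the skip letter).  Odd slots carry the ordinary letters
cyclically.  The even slot `2 * (i * (m - 1) + q)` belongs to column `q` of row `i`. -/

/-- `skipCol r i c`: row `i` has the skip letter in column `2 * c + 1`. -/
def skipCol (r i c : ℕ) : Prop :=
  (i % r = 0 ∧ (c = 0 ∨ c = r)) ∨ (i % r ≠ 0 ∧ c = r - i % r)

instance (r i c : ℕ) : Decidable (skipCol r i c) := by unfold skipCol; infer_instance

/-- the letter in column `q` of row `i` -/
def tokq (m r i q : ℕ) : ℕ :=
  if q % 2 = 0 then (if q / 2 ≤ r then m + (q / 2 - 1) else m + r + 1)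
  else (if skipCol r i (q / 2) then m + r else m + r + 1)

/-- the letter in the even slot `2 * X` -/
def tok (m r X : ℕ) : ℕ :=
  if X = 0 then m + r + 1 else tokq m r ((X - 1) / (m - 1)) ((X - 1) % (m - 1) + 1)

/-- the letter in slot `s` -/
def code (m r s : ℕ) : ℕ := if s % 2 = 1 then (s / 2) % m else tok m r (s / 2)

theorem code_odd (m r t : ℕ) : code m r (2 * t + 1) = t % m := by
  unfold code
  rw [if_pos (by omega)]
  congr 1
  omega

theorem code_even (m r X : ℕ) : code m r (2 * X) = tok m r X := by
  unfold code
  rw [if_neg (by omega)]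
  congr 1
  omega

theorem code_col (m r i q : ℕ) (hq : 1 ≤ q) (hqm : q ≤ m - 1) :
    code m r (2 * (i * (m - 1) + q)) = tokq m r i q := by
  rw [code_even]
  unfold tok
  rw [if_neg (by omega)]
  have h1 : i * (m - 1) + q - 1 = (q - 1) + (m - 1) * i := by
    rw [Nat.mul_comm i]; omega
  have h2 : 0 < m - 1 := by omega
  rw [h1, Nat.add_mul_div_left _ _ h2, Nat.add_mul_mod_self_left, Nat.div_eq_of_lt (by omega),
    Nat.mod_eq_of_lt (by omega : q - 1 < m - 1), Nat.zero_add]
  congr 1
  omega

theorem tokq_star (m r i c : ℕ) (hc : c < r) : tokq m r i (2 * c + 2) = m + c := by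
  unfold tokq
  rw [if_pos (by omega), if_pos (by omega)]
  congr 1
  omega

theorem tokq_skip (m r i c : ℕ) (hc : skipCol r i c) : tokq m r i (2 * c + 1) = m + r := by
  unfold tokq
  have h : (2 * c + 1) / 2 = c := by omega
  rw [if_neg (by omega), h, if_pos hc]

/-! ### Bounds for the greedy embedding -/

/-- `Good m r l i q`: the list `l` embeds into an initial segment of the word which ends before
the even slot of column `q` of row `i`; if the segment ends immediately before this slot, then its
last letter is an ordinary letter and it is the last letter of `l`. -/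
def Good (m r : ℕ) (l : List (Fin (m + r + 1))) (i q : ℕ) : Prop :=
  ∃ pos, l.Sublist (word (m + r + 1) (code m r) pos) ∧
    (pos + 1 ≤ 2 * (i * (m - 1) + q) ∨
      ∃ t x, pos = 2 * t + 2 ∧ pos ≤ 2 * (i * (m - 1) + q) ∧ l.getLast? = some x ∧
        x.val = t % m)

theorem good_ordinary {m r : ℕ} {l : List (Fin (m + r + 1))} {i q : ℕ} {y : Fin (m + r + 1)}
    (hm : 2 ≤ m) (h : Good m r l i q) (hy : y.val < m) (hyl : y ∉ l) :
    Good m r (l ++ [y]) (i + 1) q := by
  obtain ⟨pos, h1, h2⟩ := h
  have e : (i + 1) * (m - 1) + q = (i * (m - 1) + q) + (m - 1) := by ring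
  set Y := i * (m - 1) + q with hY
  rcases h2 with h2 | ⟨t, x, h3, h4, h5, h6⟩
  · obtain ⟨t, ht1, ht2, ht3⟩ := exists_mod m (Y - 1) y.val (by omega) hy
    refine ⟨2 * t + 1 + 1, step h1 (by omega) (by rw [code_odd, ht3]), Or.inr ⟨t, y, by omega, ?_,
      by simp, ht3.symm⟩⟩
    rw [e]
    omega
  · obtain ⟨t', ht1, ht2, ht3⟩ := exists_mod m (t + 1) y.val (by omega) hy
    have hne : t' ≠ t + m := by
      intro hh
      rw [hh, Nat.add_mod_right] at ht3
      have hxy : x = y := Fin.ext (by omega)
      apply hyl
      rw [← hxy]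
      exact List.mem_of_getLast? h5
    refine ⟨2 * t' + 1 + 1, step h1 (by omega) (by rw [code_odd, ht3]), Or.inr ⟨t', y, by omega,
      ?_, by simp, ht3.symm⟩⟩
    rw [e]
    omega

theorem good_special {m r : ℕ} {l : List (Fin (m + r + 1))} {i q i' q' : ℕ}
    {z : Fin (m + r + 1)} (h : Good m r l i q) (hq' : 1 ≤ q') (hqm : q' ≤ m - 1)
    (hz : tokq m r i' q' = z.val) (hle : i * (m - 1) + q ≤ i' * (m - 1) + q') :
    Good m r (l ++ [z]) i' (q' + 1) := by
  obtain ⟨pos, h1, h2⟩ := h
  have hpos : pos ≤ 2 * (i' * (m - 1) + q') := by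
    rcases h2 with h2 | ⟨t, x, h3, h4, h5, h6⟩ <;> omega
  refine ⟨2 * (i' * (m - 1) + q') + 1, step h1 hpos (by rw [code_col m r i' q' hq' hqm, hz]),
    Or.inl ?_⟩
  omega


/-! ### The potential -/

/-- number of ordinary letters in `l` -/
def ordCount (m r : ℕ) (l : List (Fin (m + r + 1))) : ℕ := l.countP (fun x => decide (x.val < m))

/-- the stars (numbered `0, …, r - 1`) which do not occur in `l` -/
def starsLeft (m r : ℕ) (l : List (Fin (m + r + 1))) : Finset ℕ :=
  (Finset.range r).filter (fun c => ∀ x ∈ l, x.val ≠ m + c)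

/-- the skip letter occurs in `l` -/
def skipUsed (m r : ℕ) (l : List (Fin (m + r + 1))) : Prop := ∃ x ∈ l, x.val = m + r

/-- The three kinds of states: no special letter used; the skip letter not used and the last
special letter is star number `k`; the skip letter used. -/
def Pot (r : ℕ) (p : ℕ) (R : Finset ℕ) (b : Prop) (i q : ℕ) : Prop :=
  (¬ b ∧ q = 1 ∧ R = Finset.range r ∧ i ≤ p) ∨
  (¬ b ∧ ∃ k, 1 ≤ k ∧ k ≤ r ∧ q = 2 * k + 1 ∧ k - 1 ∉ R ∧ i + R.card + 1 ≤ p + r ∧
    ((∀ c ∈ R, c + 1 < k) → R.card + 2 ≤ k → i + R.card + 2 ≤ p + r)) ∨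
  (b ∧ i + R.card ≤ p + r ∧ ((∀ c ∈ R, 2 * c + 2 < q) → i + R.card + 1 ≤ p + r))

theorem pot_ordinary {r p : ℕ} {R : Finset ℕ} {b : Prop} {i q : ℕ} (h : Pot r p R b i q) :
    Pot r (p + 1) R b (i + 1) q := by
  rcases h with ⟨h1, h2, h3, h4⟩ | ⟨h1, k, h2, h3, h4, h5, h6, h7⟩ | ⟨h1, h2, h3⟩
  · exact Or.inl ⟨h1, h2, h3, by omega⟩
  · refine Or.inr (Or.inl ⟨h1, k, h2, h3, h4, h5, by omega, ?_⟩)
    intro h8 h9
    have := h7 h8 h9
    omega
  · refine Or.inr (Or.inr ⟨h1, by omega, ?_⟩)
    intro h8
    have := h3 h8
    omega

theorem pot_star {m r p : ℕ} {R : Finset ℕ} {b : Prop} {i q c : ℕ} (hm : 2 * r + 2 ≤ m)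
    (hR : R ⊆ Finset.range r) (hq : q ≤ 2 * r + 2)
    (hc : c ∈ R) (h : Pot r p R b i q) :
    ∃ i', i * (m - 1) + q ≤ i' * (m - 1) + (2 * c + 2) ∧ Pot r p (R.erase c) b i' (2 * c + 3) := by
  have hcr : c < r := Finset.mem_range.1 (hR hc)
  have hcard : (R.erase c).card + 1 = R.card := Finset.card_erase_add_one hc
  have hcne : c ∉ R.erase c := Finset.notMem_erase c R
  rcases h with ⟨h1, h2, h3, h4⟩ | ⟨h1, k, h2, h3, h4, h5, h6, h7⟩ | ⟨h1, h2, h3⟩
  · refine ⟨i, by omega, Or.inr (Or.inl ⟨h1, c + 1, by omega, by omega, by omega, ?_, ?_, ?_⟩)⟩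
    · simp
    · rw [h3, Finset.card_range] at hcard
      rw [h3]
      omega
    · intro h8 h9
      rw [h3, Finset.card_range] at hcard
      rw [h3] at h9
      omega
  · by_cases hck : k ≤ c
    · refine ⟨i, by omega, Or.inr (Or.inl ⟨h1, c + 1, by omega, by omega, by omega, ?_, ?_, ?_⟩)⟩
      · simp
      · omega
      · intro h8 h9
        omega
    · have hck2 : c + 1 < k := by
        rcases Nat.lt_or_ge (c + 1) k with h | h
        · exact h
        · exfalso
          apply h5
          have : k - 1 = c := by omega
          rw [this]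
          exact hc
      refine ⟨i + 1, ?_, Or.inr (Or.inl ⟨h1, c + 1, by omega, by omega, by omega, ?_, ?_, ?_⟩)⟩
      · have : (i + 1) * (m - 1) = i * (m - 1) + (m - 1) := by ring
        omega
      · simp
      · omega
      · intro h8 h9
        have h10 : ∀ c' ∈ R, c' + 1 < k := by
          intro c' hc'
          by_cases hcc : c' = c
          · omega
          · have := h8 c' (Finset.mem_erase.2 ⟨hcc, hc'⟩)
            omega
        have := h7 h10 (by omega)
        omega
  · by_cases hqc : q ≤ 2 * c + 2
    · refine ⟨i, by omega, Or.inr (Or.inr ⟨h1, by omega, ?_⟩)⟩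
      intro _
      omega
    · refine ⟨i + 1, ?_, Or.inr (Or.inr ⟨h1, by omega, ?_⟩)⟩
      · have : (i + 1) * (m - 1) = i * (m - 1) + (m - 1) := by ring
        omega
      · intro h8
        have h10 : ∀ c' ∈ R, 2 * c' + 2 < q := by
          intro c' hc'
          by_cases hcc : c' = c
          · omega
          · have := h8 c' (Finset.mem_erase.2 ⟨hcc, hc'⟩)
            omega
        have := h3 h10
        omega

theorem skipCol_zero {r i : ℕ} (h : i % r = 0) : skipCol r i 0 ∧ skipCol r i r :=
  ⟨Or.inl ⟨h, Or.inl rfl⟩, Or.inl ⟨h, Or.inr rfl⟩⟩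

theorem skipCol_next {r i : ℕ} (hr : 1 ≤ r) (h : i % r ≠ 0) :
    skipCol r (i + 1) (r - i % r - 1) := by
  have h1 : i % r < r := Nat.mod_lt _ hr
  have h2 := Nat.add_mod i 1 r
  by_cases h3 : i % r + 1 = r
  · left
    constructor
    · rcases Nat.lt_or_ge 1 r with h4 | h4
      · rw [h2, Nat.mod_eq_of_lt h4, h3, Nat.mod_self]
      · have : r = 1 := by omega
        subst this
        omega
    · left
      omega
  · have h4 : 1 < r := by omega
    have h5 : (i + 1) % r = i % r + 1 := by
      rw [h2, Nat.mod_eq_of_lt h4, Nat.mod_eq_of_lt (by omega)]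
    right
    rw [h5]
    constructor
    · omega
    · omega

theorem pot_skip {m r p : ℕ} {R : Finset ℕ} {b : Prop} {i q : ℕ} (hr : 1 ≤ r)
    (hm : 2 * r + 2 ≤ m) (hb : ¬ b) (h : Pot r p R b i q) :
    ∃ i' c, c ≤ r ∧ skipCol r i' c ∧ i * (m - 1) + q ≤ i' * (m - 1) + (2 * c + 1) ∧
      Pot r p R True i' (2 * c + 2) := by
  have hlt : i % r < r := Nat.mod_lt _ hr
  rcases h with ⟨h1, h2, h3, h4⟩ | ⟨h1, k, h2, h3, h4, h5, h6, h7⟩ | ⟨h1, h2, h3⟩
  · have hcard : R.card = r := by rw [h3, Finset.card_range]
    by_cases h0 : i % r = 0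
    · refine ⟨i, 0, by omega, (skipCol_zero h0).1, by omega, Or.inr (Or.inr ⟨trivial, by omega, ?_⟩)⟩
      intro h8
      have := h8 0 (by rw [h3]; exact Finset.mem_range.2 (by omega))
      omega
    · refine ⟨i, r - i % r, by omega, Or.inr ⟨h0, rfl⟩, by omega,
        Or.inr (Or.inr ⟨trivial, by omega, ?_⟩)⟩
      intro h8
      have := h8 (r - i % r) (by rw [h3]; exact Finset.mem_range.2 (by omega))
      omega
  · by_cases h0 : i % r = 0
    · refine ⟨i, r, le_refl r, (skipCol_zero h0).2, by omega,
        Or.inr (Or.inr ⟨trivial, by omega, ?_⟩)⟩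
      intro _
      omega
    · by_cases hk : k ≤ r - i % r
      · refine ⟨i, r - i % r, by omega, Or.inr ⟨h0, rfl⟩, by omega,
          Or.inr (Or.inr ⟨trivial, by omega, ?_⟩)⟩
        intro _
        omega
      · refine ⟨i + 1, r - i % r - 1, by omega, skipCol_next hr h0, ?_,
          Or.inr (Or.inr ⟨trivial, by omega, ?_⟩)⟩
        · have : (i + 1) * (m - 1) = i * (m - 1) + (m - 1) := by ring
          omega
        · intro h8
          have h10 : ∀ c ∈ R, c + 1 < r - i % r := by
            intro c hc
            have := h8 c hc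
            omega
          have h11 : R.card ≤ r - i % r - 1 := by
            have : R ⊆ Finset.range (r - i % r - 1) := by
              intro c hc
              have := h10 c hc
              exact Finset.mem_range.2 (by omega)
            simpa using Finset.card_le_card this
          have := h7 (fun c hc => by have := h10 c hc; omega) (by omega)
          omega
  · exact absurd h1 hb


/-! ### Every permutation embeds -/

theorem ordCount_append (m r : ℕ) (l : List (Fin (m + r + 1))) (x : Fin (m + r + 1)) :
    ordCount m r (l ++ [x]) = ordCount m r l + (if x.val < m then 1 else 0) := by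
  unfold ordCount
  rw [List.countP_append]
  by_cases h : x.val < m
  · simp [h]
  · simp [h]

theorem starsLeft_append_other (m r : ℕ) (l : List (Fin (m + r + 1))) (x : Fin (m + r + 1))
    (h : x.val < m ∨ x.val = m + r) : starsLeft m r (l ++ [x]) = starsLeft m r l := by
  unfold starsLeft
  apply Finset.filter_congr
  intro c hc
  have hc' := Finset.mem_range.1 hc
  constructor
  · intro h1 y hy
    exact h1 y (List.mem_append_left _ hy)
  · intro h1 y hy
    rcases List.mem_append.1 hy with hy | hy
    · exact h1 y hy
    · rw [List.mem_singleton] at hy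
      subst hy
      omega

theorem starsLeft_append_star (m r : ℕ) (l : List (Fin (m + r + 1))) (x : Fin (m + r + 1))
    (c : ℕ) (h : x.val = m + c) :
    starsLeft m r (l ++ [x]) = (starsLeft m r l).erase c := by
  ext d
  unfold starsLeft
  simp only [Finset.mem_filter, Finset.mem_range, Finset.mem_erase, List.mem_append,
    List.mem_singleton]
  constructor
  · rintro ⟨h1, h2⟩
    refine ⟨?_, h1, fun y hy => h2 y (Or.inl hy)⟩
    intro hd
    have := h2 x (Or.inr rfl)
    omega
  · rintro ⟨h1, h2, h3⟩
    refine ⟨h2, ?_⟩
    rintro y (hy | hy)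
    · exact h3 y hy
    · subst hy
      omega

theorem main {m r : ℕ} (hr : 1 ≤ r) (hm : 2 * r + 2 ≤ m) (l : List (Fin (m + r + 1)))
    (hl : l.Nodup) : ∃ i q, q ≤ 2 * r + 2 ∧ Good m r l i q ∧
      Pot r (ordCount m r l) (starsLeft m r l) (skipUsed m r l) i q := by
  induction l using List.reverseRecOn with
  | nil =>
    refine ⟨0, 1, by omega, ⟨0, by simp, Or.inl (by omega)⟩, Or.inl ⟨?_, rfl, ?_, by omega⟩⟩
    · rintro ⟨x, hx, _⟩
      simp at hx
    · simp [starsLeft]
  | append_singleton l x ih =>
    have hnd : l.Nodup := (List.nodup_append.1 hl).1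
    have hxl : x ∉ l := by
      intro hx
      exact (List.nodup_append.1 hl).2.2 x hx x (by simp) rfl
    obtain ⟨i, q, hq, hg, hp⟩ := ih hnd
    have hlt := x.isLt
    rcases Nat.lt_or_ge x.val m with hx | hx
    · -- an ordinary letter
      refine ⟨i + 1, q, hq, good_ordinary (by omega) hg hx hxl, ?_⟩
      have e1 : ordCount m r (l ++ [x]) = ordCount m r l + 1 := by
        rw [ordCount_append, if_pos hx]
      have e3 : skipUsed m r (l ++ [x]) = skipUsed m r l := by
        unfold skipUsed
        apply propext
        constructor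
        · rintro ⟨y, hy, hy2⟩
          rcases List.mem_append.1 hy with hy | hy
          · exact ⟨y, hy, hy2⟩
          · rw [List.mem_singleton] at hy
            subst hy
            omega
        · rintro ⟨y, hy, hy2⟩
          exact ⟨y, List.mem_append_left _ hy, hy2⟩
      rw [e1, e3, starsLeft_append_other m r l x (Or.inl hx)]
      exact pot_ordinary hp
    · have e1 : ordCount m r (l ++ [x]) = ordCount m r l := by
        rw [ordCount_append, if_neg (by omega)]
        rfl
      by_cases hx2 : x.val = m + r
      · -- the skip letter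
        have hb : ¬ skipUsed m r l := by
          rintro ⟨y, hy, hy2⟩
          apply hxl
          have : y = x := Fin.ext (by omega)
          rw [← this]
          exact hy
        obtain ⟨i', c, hc, hcol, hle, hp'⟩ := pot_skip hr hm hb hp
        refine ⟨i', 2 * c + 2, by omega, good_special hg (by omega) (by omega)
          (by rw [tokq_skip m r i' c hcol, hx2]) hle, ?_⟩
        have e3 : skipUsed m r (l ++ [x]) = True := by
          unfold skipUsed
          apply propext
          constructor
          · intro _; trivial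
          · intro _; exact ⟨x, by simp, hx2⟩
        rw [e1, e3, starsLeft_append_other m r l x (Or.inr hx2)]
        exact hp'
      · -- a star
        obtain ⟨c, hc⟩ : ∃ c, x.val = m + c := ⟨x.val - m, by omega⟩
        have hcr : c < r := by omega
        have hcR : c ∈ starsLeft m r l := by
          unfold starsLeft
          rw [Finset.mem_filter, Finset.mem_range]
          refine ⟨hcr, ?_⟩
          intro y hy hyc
          apply hxl
          have : y = x := Fin.ext (by omega)
          rw [← this]
          exact hy
        obtain ⟨i', hle, hp'⟩ := pot_star hm (Finset.filter_subset _ _) hq hcR hp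
        refine ⟨i', 2 * c + 3, by omega, good_special hg (by omega) (by omega)
          (by rw [tokq_star m r i' c hcr, hc]) hle, ?_⟩
        have e3 : skipUsed m r (l ++ [x]) = skipUsed m r l := by
          unfold skipUsed
          apply propext
          constructor
          · rintro ⟨y, hy, hy2⟩
            rcases List.mem_append.1 hy with hy | hy
            · exact ⟨y, hy, hy2⟩
            · rw [List.mem_singleton] at hy
              subst hy
              omega
          · rintro ⟨y, hy, hy2⟩
            exact ⟨y, List.mem_append_left _ hy, hy2⟩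
        rw [e1, e3, starsLeft_append_star m r l x c hc]
        exact hp'

theorem ordCount_le (m r : ℕ) (l : List (Fin (m + r + 1))) (hl : l.Nodup) :
    ordCount m r l ≤ m := by
  unfold ordCount
  rw [List.countP_eq_length_filter]
  have h1 : (l.filter (fun x => decide (x.val < m))).Nodup := hl.filter _
  rw [← List.toFinset_card_of_nodup h1]
  have h2 : (l.filter (fun x => decide (x.val < m))).toFinset.card ≤ (Finset.range m).card := by
    apply Finset.card_le_card_of_injOn (fun x => x.val)
    · intro x hx
      have hx' : x ∈ (l.filter (fun x => decide (x.val < m))).toFinset := hx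
      rw [List.mem_toFinset, List.mem_filter] at hx'
      have h3 : x.val < m := by simpa using hx'.2
      exact Finset.mem_coe.2 (Finset.mem_range.2 h3)
    · intro x _ y _ hxy
      exact Fin.ext hxy
  simpa using h2

/-- the number of slots used -/
def half (m r : ℕ) : ℕ := (m + r - 1) * (m - 1) + (2 * r + 2)

theorem universal_word {m r : ℕ} (hr : 1 ≤ r) (hm : 2 * r + 2 ≤ m) :
    Universal (word (m + r + 1) (code m r) (2 * half m r)) := by
  intro π
  have hnd : (List.ofFn π).Nodup := List.nodup_ofFn.2 π.injective
  obtain ⟨i, q, hq, hg, hp⟩ := main hr hm (List.ofFn π) hnd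
  have hall : ∀ x : Fin (m + r + 1), x ∈ List.ofFn π := by
    intro x
    rw [List.mem_ofFn]
    exact π.surjective x
  have hR : starsLeft m r (List.ofFn π) = ∅ := by
    unfold starsLeft
    apply Finset.filter_eq_empty_iff.2
    intro c hc h
    have hc' := Finset.mem_range.1 hc
    exact h ⟨m + c, by omega⟩ (hall _) rfl
  have hb : skipUsed m r (List.ofFn π) := ⟨⟨m + r, by omega⟩, hall _, rfl⟩
  have hord := ordCount_le m r _ hnd
  rw [hR] at hp
  have hi : i + 1 ≤ m + r := by
    rcases hp with ⟨h1, _⟩ | ⟨h1, _⟩ | ⟨_, _, h3⟩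
    · exact absurd hb h1
    · exact absurd hb h1
    · have := h3 (by intro c hc; simp at hc)
      rw [Finset.card_empty] at this
      omega
  obtain ⟨pos, h1, h2⟩ := hg
  have hpos : pos ≤ 2 * (i * (m - 1) + q) := by
    rcases h2 with h2 | ⟨t, x, h3, h4, h5, h6⟩ <;> omega
  have h5 : i * (m - 1) + q ≤ half m r := by
    unfold half
    have : i * (m - 1) ≤ (m + r - 1) * (m - 1) := Nat.mul_le_mul_right _ (by omega)
    omega
  exact h1.trans (word_mono _ _ (by omega))

/-! ### The length of the word -/

theorem length_word (n : ℕ) (code : ℕ → ℕ) (N : ℕ) :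
    (word n code N).length = ((Finset.range N).filter (fun s => code s < n)).card := by
  induction N with
  | zero => simp [word]
  | succ N ih =>
    rw [word_succ, List.length_append, ih, Finset.range_add_one, Finset.filter_insert]
    by_cases h : code N < n
    · rw [dif_pos h, if_pos h, Finset.card_insert_of_notMem (by simp)]
      simp
    · rw [dif_neg h, if_neg h]
      simp

theorem card_slots (n : ℕ) (f : ℕ → ℕ) (K : ℕ) :
    ((Finset.range (2 * K)).filter (fun s => f s < n)).card ≤
      K + ((Finset.range K).filter (fun X => f (2 * X) < n)).card := by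
  induction K with
  | zero => simp
  | succ K ih =>
    have e : 2 * (K + 1) = 2 * K + 1 + 1 := by ring
    rw [e, Finset.range_add_one, Finset.filter_insert, Finset.range_add_one,
      Finset.filter_insert, Finset.range_add_one, Finset.filter_insert]
    have h1 : ∀ (P : Prop) [Decidable P] (a : ℕ) (S : Finset ℕ),
        (if P then insert a S else S).card ≤ S.card + 1 := by
      intro P _ a S
      by_cases hP : P
      · rw [if_pos hP]
        exact Finset.card_insert_le _ _
      · rw [if_neg hP]
        omega
    refine (h1 _ _ _).trans ?_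
    by_cases h : f (2 * K) < n
    · rw [if_pos h, if_pos h]
      have h2 := Finset.card_insert_le (2 * K) ({s ∈ Finset.range (2 * K) | f s < n})
      rw [Finset.card_insert_of_notMem (by simp : K ∉ ({X ∈ Finset.range K | f (2 * X) < n}))]
      omega
    · rw [if_neg h, if_neg h]
      omega

theorem card_tokens {m r : ℕ} (hr : 1 ≤ r) (hm : 2 * r + 2 ≤ m) :
    ((Finset.range (half m r)).filter (fun X => tok m r X < m + r + 1)).card ≤
      (m + r) * r + (m + r) + (m + r + r - 1) / r := by
  set A : Finset ℕ := ((Finset.range (m + r)) ×ˢ (Finset.range r)).image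
    (fun z => z.1 * (m - 1) + (2 * z.2 + 2)) with hA
  set B : Finset ℕ := (Finset.range (m + r)).image
    (fun i => i * (m - 1) + (2 * (r - i % r) + 1)) with hB
  set C : Finset ℕ := (Finset.range ((m + r + r - 1) / r)).image
    (fun j => (j * r) * (m - 1) + 1) with hC
  have hsub : ((Finset.range (half m r)).filter (fun X => tok m r X < m + r + 1)) ⊆
      A ∪ B ∪ C := by
    intro X hX
    rw [Finset.mem_filter, Finset.mem_range] at hX
    obtain ⟨hX1, hX2⟩ := hX
    have hX0 : X ≠ 0 := by
      intro h
      rw [h] at hX2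
      simp [tok] at hX2
    unfold tok at hX2
    rw [if_neg hX0] at hX2
    set i := (X - 1) / (m - 1) with hi
    set q0 := (X - 1) % (m - 1) with hq0
    have hdiv := Nat.div_add_mod (X - 1) (m - 1)
    rw [← hi, ← hq0] at hdiv
    have hXe : X = i * (m - 1) + (q0 + 1) := by
      rw [Nat.mul_comm] at hdiv
      omega
    have him : i < m + r := by
      have h1 : X - 1 < (m + r) * (m - 1) := by
        unfold half at hX1
        have h2 : (m + r) * (m - 1) = (m + r - 1) * (m - 1) + (m - 1) := by
          have : m + r = (m + r - 1) + 1 := by omega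
          calc (m + r) * (m - 1) = ((m + r - 1) + 1) * (m - 1) := by rw [← this]
            _ = _ := by ring
        omega
      rw [hi]
      exact Nat.div_lt_of_lt_mul (by rw [Nat.mul_comm]; exact h1)
    rw [Finset.mem_union, Finset.mem_union]
    unfold tokq at hX2
    by_cases hpar : (q0 + 1) % 2 = 0
    · rw [if_pos hpar] at hX2
      by_cases hle : (q0 + 1) / 2 ≤ r
      · left; left
        rw [hA, Finset.mem_image]
        refine ⟨(i, (q0 + 1) / 2 - 1), ?_, ?_⟩
        · rw [Finset.mem_product, Finset.mem_range, Finset.mem_range]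
          exact ⟨him, by simp only; omega⟩
        · simp only
          omega
      · rw [if_neg hle] at hX2
        omega
    · rw [if_neg hpar] at hX2
      by_cases hcol : skipCol r i ((q0 + 1) / 2)
      · rcases hcol with ⟨h1, h2 | h2⟩ | ⟨h1, h2⟩
        · right
          rw [hC, Finset.mem_image]
          refine ⟨i / r, ?_, ?_⟩
          · rw [Finset.mem_range]
            have h3 : i = r * (i / r) := by
              have := Nat.div_add_mod i r
              omega
            rw [Nat.lt_iff_add_one_le, Nat.le_div_iff_mul_le (by omega)]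
            have h4 : (i / r + 1) * r = r * (i / r) + r := by ring
            omega
          · have h3 : i / r * r = i := Nat.div_mul_cancel (Nat.dvd_of_mod_eq_zero h1)
            rw [h3]
            omega
        · left; right
          rw [hB, Finset.mem_image]
          refine ⟨i, Finset.mem_range.2 him, ?_⟩
          rw [h1]
          omega
        · left; right
          rw [hB, Finset.mem_image]
          refine ⟨i, Finset.mem_range.2 him, ?_⟩
          omega
      · rw [if_neg hcol] at hX2
        omega
  have hcA : A.card ≤ (m + r) * r := by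
    rw [hA]
    refine Finset.card_image_le.trans ?_
    rw [Finset.card_product, Finset.card_range, Finset.card_range]
  have hcB : B.card ≤ m + r := by
    rw [hB]
    refine Finset.card_image_le.trans ?_
    rw [Finset.card_range]
  have hcC : C.card ≤ (m + r + r - 1) / r := by
    rw [hC]
    refine Finset.card_image_le.trans ?_
    rw [Finset.card_range]
  have h1 := Finset.card_le_card hsub
  have h2 := Finset.card_union_le (A ∪ B) C
  have h3 := Finset.card_union_le A B
  omega

theorem length_le {m r : ℕ} (hr : 1 ≤ r) (hm : 2 * r + 2 ≤ m) :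
    (word (m + r + 1) (code m r) (2 * half m r)).length ≤
      half m r + ((m + r) * r + (m + r) + (m + r + r - 1) / r) := by
  rw [length_word]
  refine (card_slots (m + r + 1) (code m r) (half m r)).trans ?_
  have h := card_tokens hr hm
  have e : ((Finset.range (half m r)).filter (fun X => code m r (2 * X) < m + r + 1)) =
      ((Finset.range (half m r)).filter (fun X => tok m r X < m + r + 1)) := by
    apply Finset.filter_congr
    intro X _
    rw [code_even]
  rw [e]
  omega

theorem minLength_le_of {n : ℕ} {γ : List (Fin n)} (h : Universal γ) :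
    minLength n ≤ γ.length := Nat.sInf_le ⟨γ, h, rfl⟩

/-- the bound with the free parameter `r` -/
theorem minLength_le (n r : ℕ) (hr : 1 ≤ r) (hn : 3 * r + 3 ≤ n) :
    minLength n + 3 * n ≤ n ^ 2 + 3 * r + 5 + (n - 1 + r - 1) / r := by
  obtain ⟨m, rfl⟩ : ∃ m, n = m + r + 1 := ⟨n - r - 1, by omega⟩
  have hm : 2 * r + 2 ≤ m := by omega
  have h1 := minLength_le_of (universal_word hr hm)
  have h2 := length_le hr hm
  have h3 : half m r + ((m + r) * r + (m + r)) + 3 * (m + r + 1) =
      (m + r + 1) ^ 2 + 3 * r + 5 := by
    unfold half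
    obtain ⟨k, rfl⟩ : ∃ k, m = k + 1 := ⟨m - 1, by omega⟩
    have e1 : k + 1 + r - 1 = k + r := by omega
    have e2 : k + 1 - 1 = k := by omega
    rw [e1, e2]
    ring
  have e4 : m + r + 1 - 1 + r - 1 = m + r + r - 1 := by omega
  rw [e4]
  omega


/-- `f(n) ≤ n² - 3n + 2√(3n) + 9` for all `n ≥ 12`. -/
theorem result : ∀ n : ℕ, 12 ≤ n →
    (minLength n : ℝ) ≤ (n : ℝ) ^ 2 - 3 * n + 2 * Real.sqrt (3 * n) + 9 := by
  intro n hn
  have hnR : (12 : ℝ) ≤ n := by exact_mod_cast hn
  set x : ℝ := Real.sqrt (3 * n) with hx
  have hx2 : x ^ 2 = 3 * n := by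
    rw [hx]
    exact Real.sq_sqrt (by linarith)
  have hx0 : 0 ≤ x := Real.sqrt_nonneg _
  have hx6 : 6 ≤ x := by nlinarith
  set r : ℕ := ⌈x / 3⌉₊ with hr
  have hr1 : x / 3 ≤ r := Nat.le_ceil _
  have hr2 : (r : ℝ) < x / 3 + 1 := Nat.ceil_lt_add_one (by linarith)
  have hr3 : 1 ≤ r := by
    have : (0 : ℝ) < r := by linarith
    exact_mod_cast this
  have hrR : (1 : ℝ) ≤ r := by exact_mod_cast hr3
  have hxn : x + 6 ≤ n := by nlinarith
  have hrn : 3 * r + 3 ≤ n := by
    have : (3 * r + 3 : ℝ) ≤ n := by linarith
    exact_mod_cast this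
  have h := minLength_le n r hr3 hrn
  have hdiv : (((n - 1 + r - 1) / r : ℕ) : ℝ) ≤ x + 1 := by
    have h1 : (((n - 1 + r - 1) / r : ℕ) : ℝ) ≤ ((n - 1 + r - 1 : ℕ) : ℝ) / r := Nat.cast_div_le
    have h2 : ((n - 1 + r - 1 : ℕ) : ℝ) ≤ n + r := by
      have : n - 1 + r - 1 ≤ n + r := by omega
      exact_mod_cast this
    refine h1.trans ?_
    rw [div_le_iff₀ (by linarith)]
    nlinarith
  have hR : (minLength n : ℝ) + 3 * n ≤ (n : ℝ) ^ 2 + 3 * r + 5 + ((n - 1 + r - 1) / r : ℕ) := by
    exact_mod_cast h
  linarith

end Pool.Agent.Results.MP_81fcf0_co.ThreeN
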